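import Pool.Agent.H7.HZ.Stmts

/-!
Row FND of the board `hz`: a good clique of clean vertices
-/

set_option autoImplicit false

open Finset

namespace Pool.HZ7

open Pool.Agent.H23.KT Pool.Agent.H46.KW Pool.KQ Pool.GT7 Pool.GU7

section

variable {V : Type} [Fintype V] [DecidableEq V] (G : SimpleGraph V)

/-- Cliques through a vertex. -/
lemma fnd_thr (v : V) (j : ℕ) :
    ((clq G univ (j + 1)).filter (fun K => v ∈ K)).card = kc G (nb G univ v) j := by
  classical
  have h := sum_link (G := G) (mem_univ v) j (fun _ => 1)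
  rw [kc_eq, card_eq_sum_ones, card_eq_sum_ones]
  exact h

/-- Double counting. -/
lemma fnd_dbl (j : ℕ) : ∑ v, kc G (nb G univ v) j = (j + 1) * kc G univ (j + 1) := by
  classical
  simp_rw [← fnd_thr, card_filter]
  rw [sum_comm, kc_eq, mul_comm, ← smul_eq_mul, ← sum_const]
  apply sum_congr rfl
  intro K hK
  rw [← card_filter]
  have h1 : univ.filter (fun v => v ∈ K) = K := by
    ext x
    simp
  rw [h1]
  exact ((mem_clq G).1 hK).2.1

/-- Cliques through two vertices. -/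
lemma fnd_two (v y : V) (hvy : v ≠ y) (j Δ : ℕ) (hd : (nb G univ v).card ≤ Δ) :
    ((clq G univ (j + 2)).filter (fun K => v ∈ K ∧ y ∈ K)).card ≤ Δ ^ j := by
  classical
  have h : ((clq G univ (j + 2)).filter (fun K => v ∈ K ∧ y ∈ K)).card ≤
      (nb G univ v).card.choose j := by
    apply card_le_choose' (X := {v, y})
    intro T hT
    rw [mem_filter, mem_clq] at hT
    obtain ⟨⟨_, h2, h3⟩, h4, h5⟩ := hT
    refine ⟨?_, ?_, ?_⟩
    · intro x hx
      rw [mem_insert, mem_singleton] at hx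
      rcases hx with rfl | rfl <;> assumption
    · intro x hx
      rw [mem_sdiff, mem_insert, mem_singleton, not_or] at hx
      rw [mem_nb]
      exact ⟨mem_univ _, h3 (mem_coe.2 h4) (mem_coe.2 hx.1) (Ne.symm hx.2.1)⟩
    · rw [h2, card_pair hvy]
  exact h.trans ((Nat.choose_le_pow _ _).trans (Nat.pow_le_pow_left hd _))

/-- The neighbourhood of a clean vertex has many cliques. -/
lemma fnd_low (hT : TRVStmt) (hB : BRKStmt) (p r a : ℕ) (e C : ℝ) (ha1 : 1 ≤ a)
    (haC : 8 * C * 2 ^ (p + 1) ≤ (a : ℝ)) (he0 : 0 < e) (he : e ≤ 1 / (8 * ((p : ℝ) + 3)))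
    (v : V) (P : Fin (p + 3) → Finset V) (h : Cl G p r a e C v P) :
    3 / 4 * (a : ℝ) ^ (p + 3) ≤ kc G (nb G univ v) (p + 3) := by
  classical
  obtain ⟨_, hS⟩ := h
  have hW : nb G univ v = un P := by
    ext y
    rw [hS.cov y]
    simp [un]
  rw [hW, (hT G P hS.par).1]
  have ha : (1 : ℝ) ≤ a := by exact_mod_cast ha1
  have hp : (0 : ℝ) ≤ p := Nat.cast_nonneg p
  have hpe : ((p : ℝ) + 3) * e ≤ 1 / 8 := by
    rw [le_div_iff₀ (by positivity)] at he
    nlinarith
  have he1 : e ≤ 1 := by nlinarith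
  have h1 := (hB G p P).1 (2 * a) (fun i => by
    have h2 := hS.hi i
    have h3 : ((P i).card : ℝ) ≤ 2 * a := h2.trans (by nlinarith)
    exact_mod_cast h3)
  have h1' : ∏ i, ((P i).card : ℝ) ≤ (trv G P).card + tot G P * (2 * (a : ℝ)) ^ (p + 1) := by
    exact_mod_cast h1
  have h2 : ((1 - e) * a) ^ (p + 3) ≤ ∏ i, ((P i).card : ℝ) := by
    have h3 : ∏ _i : Fin (p + 3), ((1 - e) * (a : ℝ)) ≤ ∏ i, ((P i).card : ℝ) :=
      prod_le_prod (fun i _ => mul_nonneg (by linarith) (by linarith)) (fun i _ => hS.lo i)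
    rwa [prod_const, card_univ, Fintype.card_fin] at h3
  have h3 : 1 + ((p + 3 : ℕ) : ℝ) * (-e) ≤ (1 + -e) ^ (p + 3) :=
    one_add_mul_le_pow (by linarith) (p + 3)
  have h4 : (7 : ℝ) / 8 ≤ (1 - e) ^ (p + 3) := by
    have h5 : (1 + -e) = 1 - e := by ring
    rw [h5] at h3
    push_cast at h3
    linarith
  have h5 : 7 / 8 * (a : ℝ) ^ (p + 3) ≤ ((1 - e) * a) ^ (p + 3) := by
    rw [mul_pow]
    exact mul_le_mul_of_nonneg_right h4 (by positivity)
  have h6 : (tot G P : ℝ) * (2 * (a : ℝ)) ^ (p + 1) ≤ 1 / 8 * (a : ℝ) ^ (p + 3) := by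
    calc (tot G P : ℝ) * (2 * (a : ℝ)) ^ (p + 1) ≤ (C * a) * (2 * (a : ℝ)) ^ (p + 1) :=
          mul_le_mul_of_nonneg_right hS.tot (by positivity)
      _ = 1 / 8 * (8 * C * 2 ^ (p + 1)) * (a : ℝ) ^ (p + 2) := by
          rw [mul_pow]
          ring
      _ ≤ 1 / 8 * a * (a : ℝ) ^ (p + 2) := by
          apply mul_le_mul_of_nonneg_right _ (by positivity)
          linarith
      _ = 1 / 8 * (a : ℝ) ^ (p + 3) := by ring
  linarith

/-- The number of cliques in a neighbourhood. -/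
lemma fnd_up (p r a : ℕ) (hr : r ≤ p) (hG : G8 G p r a) (v : V) :
    (kc G (nb G univ v) (p + 3) : ℝ) ≤ ((a : ℝ) + 1) ^ (p + 3) := by
  classical
  have hCB : CB G (nb G univ v) (p + 2 + 1) := CB.nb (r := p + 3) hG.cb (mem_univ v)
  have h1 := zyk_real (G := G) (p + 2) (nb G univ v) hCB
  have h2 : (((nb G univ v).card : ℝ)) ≤ ((p : ℝ) + 3) * a + r := by
    have := hG.deg v
    exact_mod_cast this
  have hr' : (r : ℝ) ≤ p := by exact_mod_cast hr
  have h3 : ((nb G univ v).card : ℝ) / (((p + 2 : ℕ) : ℝ) + 1) ≤ (a : ℝ) + 1 := by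
    rw [div_le_iff₀ (by positivity)]
    push_cast
    nlinarith
  exact h1.trans (pow_le_pow_left₀ (by positivity) h3 _)

omit [Fintype V] in
/-- Few atypical vertices. -/
lemma fnd_tcard (p : ℕ) (P : Fin (p + 3) → Finset V) (c : ℝ) (hc : 0 < c) (T : Finset V)
    (hT : ∀ y ∈ T, ∃ j k, k ≠ j ∧ y ∈ P j ∧ c < ((non G (P k) y).card : ℝ)) :
    c * T.card ≤ (tot G P : ℝ) := by
  classical
  have h1 : T ⊆ univ.biUnion (fun j => (univ.erase j).biUnion (fun k =>
      (P j).filter (fun y => c < ((non G (P k) y).card : ℝ)))) := by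
    intro y hy
    obtain ⟨j, k, hkj, hyj, hlt⟩ := hT y hy
    rw [mem_biUnion]
    refine ⟨j, mem_univ _, ?_⟩
    rw [mem_biUnion]
    exact ⟨k, mem_erase.2 ⟨hkj, mem_univ _⟩, mem_filter.2 ⟨hyj, hlt⟩⟩
  have h2 : T.card ≤ ∑ j, ∑ k ∈ univ.erase j,
      ((P j).filter (fun y => c < ((non G (P k) y).card : ℝ))).card :=
    (card_le_card h1).trans (card_biUnion_le.trans (sum_le_sum (fun j _ => card_biUnion_le)))
  have h3 : (T.card : ℝ) ≤ ∑ j, ∑ k ∈ univ.erase j,
      (((P j).filter (fun y => c < ((non G (P k) y).card : ℝ))).card : ℝ) := by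
    exact_mod_cast h2
  unfold tot
  push_cast
  refine (mul_le_mul_of_nonneg_left h3 hc.le).trans ?_
  rw [mul_sum]
  apply sum_le_sum
  intro j _
  rw [mul_sum]
  apply sum_le_sum
  intro k _
  calc c * (((P j).filter (fun y => c < ((non G (P k) y).card : ℝ))).card : ℝ)
      = ∑ _y ∈ (P j).filter (fun y => c < ((non G (P k) y).card : ℝ)), c := by
        rw [sum_const, nsmul_eq_mul]
        ring
    _ ≤ ∑ y ∈ (P j).filter (fun y => c < ((non G (P k) y).card : ℝ)),
          ((non G (P k) y).card : ℝ) :=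
        sum_le_sum (fun y hy => (mem_filter.1 hy).2.le)
    _ ≤ ∑ y ∈ P j, ((non G (P k) y).card : ℝ) :=
        sum_le_sum_of_subset_of_nonneg (filter_subset _ _) (fun _ _ _ => Nat.cast_nonneg _)

/-- Few vertices with many neighbours outside `D`. -/
lemma fnd_b2 (D : Finset V) (Δ : ℕ) (hd : ∀ v, (nb G univ v).card ≤ Δ) :
    ∑ v, (nb G univ v \ D).card ≤ (univ \ D).card * Δ := by
  classical
  have h1 : ∀ v, (nb G univ v \ D).card = ∑ y ∈ univ \ D, if G.Adj v y then 1 else 0 := by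
    intro v
    rw [← card_filter]
    congr 1
    ext y
    simp only [mem_sdiff, mem_nb, mem_filter, mem_univ, true_and]
    tauto
  simp_rw [h1]
  rw [sum_comm]
  rw [← smul_eq_mul]
  apply sum_le_card_nsmul
  intro y _
  rw [← card_filter]
  refine le_trans (le_of_eq ?_) (hd y)
  congr 1
  ext v
  simp only [mem_filter, mem_univ, true_and, mem_nb]
  exact G.adj_comm v y

end

/-- The row FND. -/
theorem fnd_thm (hT : TRVStmt) (hB : BRKStmt) : FNDStmt := by
  classical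
  intro p r hpr C hC
  have hp : (0 : ℝ) ≤ p := Nat.cast_nonneg p
  set β : ℝ := (p : ℝ) + 4 with hβ
  have hβ0 : 0 < β := by linarith
  set ε : ℝ := 1 / (8 * β * (1 + 4 * β) * 2 ^ (p + 3)) with hε
  set c : ℝ := 8 * C * β ^ (p + 3) with hc
  have hε0 : 0 < ε := by positivity
  have hc0 : 0 < c := by positivity
  have hε2 : ε ≤ 1 / 2 := by
    rw [hε]
    apply one_div_le_one_div_of_le (by norm_num)
    have h1 : (1 : ℝ) ≤ 2 ^ (p + 3) := one_le_pow₀ (by norm_num)
    have h2 : (2 : ℝ) ≤ 8 * β * (1 + 4 * β) := by nlinarith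
    calc (2 : ℝ) = 2 * 1 := by ring
      _ ≤ 8 * β * (1 + 4 * β) * 2 ^ (p + 3) :=
        mul_le_mul h2 h1 (by norm_num) (by positivity)
  refine ⟨ε, c, hε0, hc0, ?_⟩
  intro e he0 he
  obtain ⟨a₀, ha₀⟩ := exists_nat_ge (8 * C * 2 ^ (p + 1) : ℝ)
  refine ⟨max a₀ (r + 1), ?_⟩
  intro a ha V _ _ G hG hne D P hD hcard
  have haa : a₀ ≤ a := (le_max_left _ _).trans ha
  have har : r + 1 ≤ a := (le_max_right _ _).trans ha
  have ha1 : 1 ≤ a := by omega
  have hA : (1 : ℝ) ≤ a := by exact_mod_cast ha1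
  have haC : 8 * C * 2 ^ (p + 1) ≤ (a : ℝ) := ha₀.trans (by exact_mod_cast haa)
  set Δ : ℕ := (p + 3) * a + r with hΔ
  have hΔβ : (Δ : ℝ) ≤ β * a := by
    have h1 : (r : ℝ) ≤ a := by exact_mod_cast (show r ≤ a by omega)
    rw [hΔ, hβ]
    push_cast
    linarith
  have hm : (0 : ℝ) < Fintype.card V := by exact_mod_cast Fintype.card_pos
  by_contra hcon
  set B₂ : Finset V := D.filter (fun v => 1 / 4 * (a : ℝ) < ((nb G univ v \ D).card : ℝ)) with hB₂
  set Bad : Finset V := (univ \ D) ∪ B₂ with hBad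
  set T : V → Finset V := fun v => (nb G univ v).filter (fun y => ∃ j k, k ≠ j ∧ y ∈ P v j ∧
    c < ((non G (P v k) y).card : ℝ)) with hTdef
  have hcov : ∀ K ∈ clq G univ (p + 4), (∃ v ∈ Bad, v ∈ K) ∨
      (∃ v ∈ D, ∃ y ∈ T v, v ∈ K ∧ y ∈ K) := by
    intro K hK
    by_contra hno
    rw [not_or] at hno
    obtain ⟨hno1, hno2⟩ := hno
    apply hcon
    obtain ⟨_, hK2, hK3⟩ := (mem_clq G).1 hK
    let φ := K.equivFinOfCardEq hK2
    have hmem : ∀ i, ((φ.symm i : K) : V) ∈ K := fun i => (φ.symm i).2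
    have hinj : ∀ i j, i ≠ j → ((φ.symm i : K) : V) ≠ ((φ.symm j : K) : V) := by
      intro i j hij h
      exact hij (φ.symm.injective (Subtype.ext h))
    have hadj : ∀ i j, i ≠ j → G.Adj ((φ.symm i : K) : V) ((φ.symm j : K) : V) := fun i j hij =>
      hK3 (mem_coe.2 (hmem i)) (mem_coe.2 (hmem j)) (hinj i j hij)
    have hDm : ∀ i, ((φ.symm i : K) : V) ∈ D := by
      intro i
      by_contra hn
      exact hno1 ⟨_, mem_union_left _ (mem_sdiff.2 ⟨mem_univ _, hn⟩), hmem i⟩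
    refine ⟨fun i => ((φ.symm i : K) : V), hadj, hDm, ?_, ?_⟩
    · intro i
      by_contra hn
      exact hno1 ⟨_, mem_union_right _ (mem_filter.2 ⟨hDm i, not_le.1 hn⟩), hmem i⟩
    · intro i l hil j hj k hkj
      by_contra hn
      apply hno2
      refine ⟨_, hDm i, _, ?_, hmem i, hmem l⟩
      rw [hTdef]
      exact mem_filter.2 ⟨(mem_nb G).2 ⟨mem_univ _, hadj i l hil⟩, j, k, hkj, hj, not_le.1 hn⟩
  have hsub : clq G univ (p + 4) ⊆
      Bad.biUnion (fun v => (clq G univ (p + 3 + 1)).filter (fun K => v ∈ K)) ∪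
      D.biUnion (fun v => (T v).biUnion (fun y =>
        (clq G univ (p + 2 + 2)).filter (fun K => v ∈ K ∧ y ∈ K))) := by
    intro K hK
    rw [mem_union]
    rcases hcov K hK with ⟨v, hv, hvK⟩ | ⟨v, hv, y, hy, hvK, hyK⟩
    · left
      rw [mem_biUnion]
      exact ⟨v, hv, mem_filter.2 ⟨hK, hvK⟩⟩
    · right
      rw [mem_biUnion]
      refine ⟨v, hv, ?_⟩
      rw [mem_biUnion]
      exact ⟨y, hy, mem_filter.2 ⟨hK, hvK, hyK⟩⟩
  have hN1 : kc G univ (p + 4) ≤ ∑ v ∈ Bad, kc G (nb G univ v) (p + 3) +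
      ∑ v ∈ D, (T v).card * Δ ^ (p + 2) := by
    rw [kc_eq]
    refine (card_le_card hsub).trans ((card_union_le _ _).trans ?_)
    refine Nat.add_le_add ?_ ?_
    · refine card_biUnion_le.trans (le_of_eq ?_)
      exact sum_congr rfl (fun v _ => fnd_thr G v (p + 3))
    · refine card_biUnion_le.trans (sum_le_sum (fun v _ => ?_))
      refine card_biUnion_le.trans ?_
      rw [← smul_eq_mul]
      apply sum_le_card_nsmul
      intro y hy
      apply fnd_two G v y _ (p + 2) Δ (hG.deg v)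
      rintro rfl
      have := (mem_nb G).1 (mem_filter.1 hy).1
      exact G.loopless.irrefl _ this.2
  set m : ℝ := (Fintype.card V : ℝ) with hmdef
  set X : ℝ := (a : ℝ) ^ (p + 3) with hX
  have hX0 : 0 < X := by positivity
  -- the bad vertices
  have hB1 : 1 / 4 * (a : ℝ) * B₂.card ≤ ((univ \ D).card : ℝ) * (β * a) := by
    have h1 := fnd_b2 G D Δ hG.deg
    have h2 : ∑ v, ((nb G univ v \ D).card : ℝ) ≤ ((univ \ D).card : ℝ) * Δ := by
      exact_mod_cast h1
    have h3 : 1 / 4 * (a : ℝ) * B₂.card ≤ ∑ v ∈ B₂, ((nb G univ v \ D).card : ℝ) := by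
      rw [mul_comm, ← nsmul_eq_mul]
      exact card_nsmul_le_sum _ _ _ (fun v hv => (mem_filter.1 hv).2.le)
    have h4 : ∑ v ∈ B₂, ((nb G univ v \ D).card : ℝ) ≤ ∑ v, ((nb G univ v \ D).card : ℝ) :=
      sum_le_sum_of_subset_of_nonneg (subset_univ _) (fun _ _ _ => Nat.cast_nonneg _)
    have h5 : ((univ \ D).card : ℝ) * Δ ≤ ((univ \ D).card : ℝ) * (β * a) :=
      mul_le_mul_of_nonneg_left hΔβ (Nat.cast_nonneg _)
    linarith
  have hB2 : (B₂.card : ℝ) ≤ 4 * β * ((univ \ D).card : ℝ) := by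
    have h1 : (a : ℝ) * B₂.card ≤ a * (4 * β * ((univ \ D).card : ℝ)) := by nlinarith
    exact le_of_mul_le_mul_left h1 (by linarith)
  have hBadc : (Bad.card : ℝ) ≤ (1 + 4 * β) * (ε * m) := by
    have h1 : (Bad.card : ℝ) ≤ ((univ \ D).card : ℝ) + B₂.card := by
      exact_mod_cast card_union_le (univ \ D) B₂
    calc (Bad.card : ℝ) ≤ (1 + 4 * β) * ((univ \ D).card : ℝ) := by linarith
      _ ≤ (1 + 4 * β) * (ε * m) := mul_le_mul_of_nonneg_left hcard (by positivity)
  have hS1 : ∑ v ∈ Bad, (kc G (nb G univ v) (p + 3) : ℝ) ≤ m * X / (8 * β) := by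
    have h1 : ∑ v ∈ Bad, (kc G (nb G univ v) (p + 3) : ℝ) ≤ Bad.card * (2 ^ (p + 3) * X) := by
      rw [← nsmul_eq_mul]
      apply sum_le_card_nsmul
      intro v _
      refine (fnd_up G p r a hpr.rp hG v).trans ?_
      rw [hX, ← mul_pow]
      exact pow_le_pow_left₀ (by positivity) (by linarith) _
    refine h1.trans ?_
    calc (Bad.card : ℝ) * (2 ^ (p + 3) * X) ≤ (1 + 4 * β) * (ε * m) * (2 ^ (p + 3) * X) :=
          mul_le_mul_of_nonneg_right hBadc (by positivity)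
      _ = m * X / (8 * β) := by
          rw [hε]
          field_simp
  -- the atypical pairs
  have hS2 : ∑ v ∈ D, ((T v).card : ℝ) * (Δ : ℝ) ^ (p + 2) ≤ m * X / (8 * β) := by
    have h1 : ∀ v ∈ D, ((T v).card : ℝ) * (Δ : ℝ) ^ (p + 2) ≤ X / (8 * β) := by
      intro v hv
      have h2 := fnd_tcard G p (P v) c hc0 (T v) (by
        intro y hy
        exact (mem_filter.1 hy).2)
      have h3 := (hD v hv).2.tot
      have h4 : ((T v).card : ℝ) ≤ C * a / c := by
        rw [le_div_iff₀ hc0]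
        linarith
      have h5 : (Δ : ℝ) ^ (p + 2) ≤ (β * a) ^ (p + 2) :=
        pow_le_pow_left₀ (Nat.cast_nonneg _) hΔβ _
      calc ((T v).card : ℝ) * (Δ : ℝ) ^ (p + 2) ≤ (C * a / c) * (β * a) ^ (p + 2) :=
            mul_le_mul h4 h5 (by positivity) (by positivity)
        _ = X / (8 * β) := by
            rw [hc, hX, mul_pow]
            field_simp
            ring
    have h2 : ∑ v ∈ D, ((T v).card : ℝ) * (Δ : ℝ) ^ (p + 2) ≤ D.card * (X / (8 * β)) := by
      rw [← nsmul_eq_mul]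
      exact sum_le_card_nsmul _ _ _ h1
    have h3 : (D.card : ℝ) ≤ m := by
      rw [hmdef]
      exact_mod_cast card_le_univ D
    calc ∑ v ∈ D, ((T v).card : ℝ) * (Δ : ℝ) ^ (p + 2) ≤ D.card * (X / (8 * β)) := h2
      _ ≤ m * (X / (8 * β)) := mul_le_mul_of_nonneg_right h3 (by positivity)
      _ = m * X / (8 * β) := by ring
  have hN2 : (kc G univ (p + 4) : ℝ) ≤ m * X / (8 * β) + m * X / (8 * β) := by
    have h1 : (kc G univ (p + 4) : ℝ) ≤ ∑ v ∈ Bad, (kc G (nb G univ v) (p + 3) : ℝ) +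
        ∑ v ∈ D, ((T v).card : ℝ) * (Δ : ℝ) ^ (p + 2) := by
      exact_mod_cast hN1
    linarith
  -- the lower bound
  have hL : 3 / 4 * X * D.card ≤ β * (kc G univ (p + 4) : ℝ) := by
    have h1 := fnd_dbl G (p + 3)
    have h2 : ∑ v, (kc G (nb G univ v) (p + 3) : ℝ) = ((p : ℝ) + 3 + 1) * kc G univ (p + 3 + 1) := by
      exact_mod_cast h1
    have h3 : 3 / 4 * X * D.card ≤ ∑ v ∈ D, (kc G (nb G univ v) (p + 3) : ℝ) := by
      rw [mul_comm, ← nsmul_eq_mul]
      exact card_nsmul_le_sum _ _ _ (fun v hv =>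
        fnd_low G hT hB p r a e C ha1 haC he0 he v (P v) (hD v hv))
    have h4 : ∑ v ∈ D, (kc G (nb G univ v) (p + 3) : ℝ) ≤
        ∑ v, (kc G (nb G univ v) (p + 3) : ℝ) :=
      sum_le_sum_of_subset_of_nonneg (subset_univ _) (fun _ _ _ => Nat.cast_nonneg _)
    have h5 : β = (p : ℝ) + 3 + 1 := by rw [hβ]; ring
    rw [h5]
    exact h3.trans (h4.trans h2.le)
  have hDc : m / 2 ≤ D.card := by
    have h1 : (univ \ D).card + D.card = Fintype.card V := by
      rw [card_sdiff_add_card_eq_card (subset_univ D), card_univ]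
    have h2 : ((univ \ D).card : ℝ) + D.card = m := by
      rw [hmdef]
      exact_mod_cast h1
    nlinarith
  have hN3 : β * (kc G univ (p + 4) : ℝ) ≤ m * X / 4 := by
    calc β * (kc G univ (p + 4) : ℝ) ≤ β * (m * X / (8 * β) + m * X / (8 * β)) :=
          mul_le_mul_of_nonneg_left hN2 hβ0.le
      _ = m * X / 4 := by
          field_simp
          ring
  have h1 : 0 < m * X := mul_pos hm hX0
  nlinarith

end Pool.HZ7
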